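import Pool.Agent.H42.Avd1

open Cardinal Pool.Agent.H42.Bau

theorem Pool.Agent.Results.MP_24213f_lc.Cons.result :
    (covM = 𝔠 → ∃ X Y : Set (ℕ → Bool), KDense 𝔠 X ∧ KDense 𝔠 Y ∧ SAv X Y ∧ SAv Y X) ∧
    (BAw ℵ₁ (ℕ → Bool) → ¬ ∃ X Y : Set (ℕ → Bool), KDense 𝔠 X ∧ KDense 𝔠 Y ∧ TAv X Y) :=
  ⟨strong, fun h ⟨_, _, a, b, c⟩ => no_total h a b c⟩
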